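import Mathlib

set_option linter.all false

/-!
The graph: 58 vertices, cubic, obtained by iterated dot products of seven Petersen graphs.
-/

namespace Pool.Agent.H780R3.Snark

/-- first neighbours -/
def t0 : List (Fin 58) := [1, 0, 0, 1, 2, 1, 5, 3, 6, 8, 5, 2, 10, 9, 7, 4, 8, 13, 12, 17, 18, 19, 18, 15, 16, 23, 20, 14, 26, 27, 26, 25, 31, 28, 32, 34, 33, 35, 33, 32, 34, 0, 30, 39, 41, 38, 44, 44, 40, 45, 46, 42, 36, 43, 48, 49, 52, 51]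
/-- second neighbours -/
def t1 : List (Fin 58) := [2, 3, 4, 4, 3, 6, 7, 6, 9, 10, 9, 12, 11, 11, 15, 14, 17, 16, 20, 20, 19, 22, 21, 22, 21, 24, 28, 28, 27, 30, 29, 29, 34, 36, 35, 36, 35, 38, 37, 37, 41, 40, 43, 42, 46, 46, 45, 48, 47, 47, 51, 50, 50, 54, 53, 54, 55, 53]
/-- third neighbours -/
def t2 : List (Fin 58) := [41, 5, 11, 7, 15, 10, 8, 14, 16, 13, 12, 13, 18, 17, 27, 23, 24, 19, 22, 21, 26, 24, 23, 25, 25, 31, 30, 29, 33, 31, 42, 32, 39, 38, 40, 37, 52, 39, 45, 43, 48, 44, 51, 53, 47, 49, 50, 49, 54, 55, 52, 57, 56, 57, 55, 56, 57, 56]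

def n0 (v : Fin 58) : Fin 58 := t0.getD v.val 0
def n1 (v : Fin 58) : Fin 58 := t1.getD v.val 0
def n2 (v : Fin 58) : Fin 58 := t2.getD v.val 0

theorem symm_aux : ∀ v w : Fin 58, (w = n0 v ∨ w = n1 v ∨ w = n2 v) →
    (v = n0 w ∨ v = n1 w ∨ v = n2 w) := by decide +kernel

theorem loop_aux : ∀ v : Fin 58, ¬ (v = n0 v ∨ v = n1 v ∨ v = n2 v) := by decide +kernel

/-- The graph. -/
def G : SimpleGraph (Fin 58) where
  Adj v w := w = n0 v ∨ w = n1 v ∨ w = n2 v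
  symm := ⟨fun v w h => symm_aux v w h⟩
  loopless := ⟨fun v h => loop_aux v h⟩

theorem G_adj {v w : Fin 58} : G.Adj v w ↔ (w = n0 v ∨ w = n1 v ∨ w = n2 v) := Iff.rfl

instance : DecidableRel G.Adj := fun v w => decidable_of_iff _ G_adj.symm

theorem n_ne : ∀ v : Fin 58, n0 v ≠ n1 v ∧ n0 v ≠ n2 v ∧ n1 v ≠ n2 v := by decide +kernel

/-- the `j`-th neighbour -/
def nn (v : Fin 58) (j : Fin 3) : Fin 58 := match j with
  | 0 => n0 v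
  | 1 => n1 v
  | 2 => n2 v

theorem adj_iff_nn {v w : Fin 58} : G.Adj v w ↔ ∃ j, w = nn v j := by
  rw [G_adj]
  constructor
  · rintro (h | h | h)
    · exact ⟨0, h⟩
    · exact ⟨1, h⟩
    · exact ⟨2, h⟩
  · rintro ⟨j, h⟩
    fin_cases j
    · exact Or.inl h
    · exact Or.inr (Or.inl h)
    · exact Or.inr (Or.inr h)

/-- edge numbers at a vertex -/
def e0 : List ℕ := [0, 0, 1, 2, 3, 5, 6, 7, 9, 10, 11, 13, 14, 16, 18, 19, 21, 22, 24, 25, 26, 28, 29, 31, 33, 35, 37, 38, 39, 41, 42, 44, 46, 47, 48, 49, 50, 52, 53, 55, 57, 58, 60, 61, 63, 64, 65, 67, 68, 70, 72, 73, 75, 77, 78, 80, 82, 84]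
def e1 : List ℕ := [1, 2, 3, 4, 4, 6, 8, 8, 10, 12, 12, 15, 15, 17, 20, 20, 23, 23, 26, 27, 27, 30, 30, 32, 34, 36, 39, 40, 40, 43, 43, 45, 48, 50, 49, 51, 51, 54, 54, 56, 59, 59, 62, 62, 65, 66, 66, 69, 69, 71, 74, 74, 76, 79, 79, 81, 83, 85]
def e2 : List ℕ := [58, 5, 13, 7, 19, 11, 9, 18, 21, 16, 14, 17, 24, 22, 38, 31, 33, 25, 29, 28, 37, 34, 32, 35, 36, 44, 42, 41, 47, 45, 60, 46, 55, 53, 57, 52, 75, 56, 64, 61, 68, 63, 73, 77, 67, 70, 72, 71, 78, 80, 76, 84, 82, 85, 81, 83, 86, 86]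

/-- smaller end of the edges -/
def ea : List (Fin 58) := [0, 0, 1, 2, 3, 1, 5, 3, 6, 6, 8, 5, 9, 2, 10, 11, 9, 11, 7, 4, 14, 8, 13, 16, 12, 17, 18, 19, 19, 18, 21, 15, 22, 16, 21, 23, 24, 20, 14, 26, 27, 27, 26, 29, 25, 29, 31, 28, 32, 34, 33, 35, 35, 33, 37, 32, 37, 34, 0, 40, 30, 39, 42, 41, 38, 44, 45, 44, 40, 47, 45, 47, 46, 42, 50, 36, 50, 43, 48, 53, 49, 54, 52, 55, 51, 53, 56]
/-- larger end of the edges -/
def eb : List (Fin 58) := [1, 2, 3, 4, 4, 5, 6, 7, 7, 8, 9, 10, 10, 11, 12, 12, 13, 13, 14, 15, 15, 16, 17, 17, 18, 19, 20, 20, 21, 22, 22, 23, 23, 24, 24, 25, 25, 26, 27, 28, 28, 29, 30, 30, 31, 31, 32, 33, 34, 35, 36, 36, 37, 38, 38, 39, 39, 40, 41, 41, 42, 43, 43, 44, 45, 46, 46, 47, 48, 48, 49, 49, 50, 51, 51, 52, 52, 53, 54, 54, 55, 55, 56, 56, 57, 57, 57]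

/-- the order in which vertices and edges are read (0: vertex, 1: edge, 2: forget) -/
def events : List (ℕ × ℕ × ℕ) := [(0, 0, 0), (0, 1, 0), (1, 0, 1), (0, 2, 0), (1, 0, 2), (0, 3, 0), (1, 1, 3), (0, 4, 0), (1, 2, 4), (1, 3, 4), (0, 5, 0), (1, 1, 5), (2, 1, 0), (0, 6, 0), (1, 5, 6), (0, 7, 0), (1, 3, 7), (1, 6, 7), (2, 3, 0), (0, 8, 0), (1, 6, 8), (2, 6, 0), (0, 9, 0), (1, 8, 9), (0, 10, 0), (1, 5, 10), (1, 9, 10), (2, 5, 0), (0, 11, 0), (1, 2, 11), (2, 2, 0), (0, 12, 0), (1, 10, 12), (1, 11, 12), (2, 10, 0), (0, 13, 0), (1, 9, 13), (1, 11, 13), (2, 9, 0), (2, 11, 0), (0, 14, 0), (1, 7, 14), (2, 7, 0), (0, 15, 0), (1, 4, 15), (1, 14, 15), (2, 4, 0), (0, 16, 0), (1, 8, 16), (2, 8, 0), (0, 17, 0), (1, 13, 17), (1, 16, 17), (2, 13, 0), (0, 18, 0), (1, 12, 18), (2, 12, 0), (0, 19, 0), (1, 17, 19), (2, 17, 0), (0, 20, 0), (1, 18, 20),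 (1, 19, 20), (0, 21, 0), (1, 19, 21), (2, 19, 0), (0, 22, 0), (1, 18, 22), (1, 21, 22), (2, 18, 0), (0, 23, 0), (1, 15, 23), (1, 22, 23), (2, 15, 0), (2, 22, 0), (0, 24, 0), (1, 16, 24), (1, 21, 24), (2, 16, 0), (2, 21, 0), (0, 25, 0), (1, 23, 25), (1, 24, 25), (2, 23, 0), (2, 24, 0), (0, 26, 0), (1, 20, 26), (2, 20, 0), (0, 27, 0), (1, 14, 27), (2, 14, 0), (0, 28, 0), (1, 26, 28), (1, 27, 28), (0, 29, 0), (1, 27, 29), (2, 27, 0), (0, 30, 0), (1, 26, 30), (1, 29, 30), (2, 26, 0), (0, 31, 0), (1, 25, 31), (1, 29, 31), (2, 25, 0), (2, 29, 0), (0, 32, 0), (1, 31, 32), (2, 31, 0), (0, 33, 0), (1, 28, 33), (2, 28, 0), (0, 34, 0), (1, 32, 34), (0, 35, 0), (1, 34, 35), (0, 36, 0), (1, 33, 36), (1, 35, 36), (0, 37, 0), (1, 35, 37), (2, 35, 0), (0, 38, 0), (1, 33, 38), (1, 37, 38), (2, 33, 0), (0, 39, 0), (1, 32, 39), (1, 37, 39), (2, 32, 0),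 (2, 37, 0), (0, 40, 0), (1, 34, 40), (2, 34, 0), (0, 41, 0), (1, 0, 41), (1, 40, 41), (2, 0, 0), (0, 42, 0), (1, 30, 42), (2, 30, 0), (0, 43, 0), (1, 39, 43), (1, 42, 43), (2, 39, 0), (0, 44, 0), (1, 41, 44), (2, 41, 0), (0, 45, 0), (1, 38, 45), (2, 38, 0), (0, 46, 0), (1, 44, 46), (1, 45, 46), (0, 47, 0), (1, 44, 47), (2, 44, 0), (0, 48, 0), (1, 40, 48), (1, 47, 48), (2, 40, 0), (0, 49, 0), (1, 45, 49), (1, 47, 49), (2, 45, 0), (2, 47, 0), (0, 50, 0), (1, 46, 50), (2, 46, 0), (0, 51, 0), (1, 42, 51), (1, 50, 51), (2, 42, 0), (0, 52, 0), (1, 36, 52), (1, 50, 52), (2, 36, 0), (2, 50, 0), (0, 53, 0), (1, 43, 53), (2, 43, 0), (0, 54, 0), (1, 48, 54), (1, 53, 54), (2, 48, 0), (0, 55, 0), (1, 49, 55), (1, 54, 55), (2, 49, 0), (2, 54, 0), (0, 56, 0), (1, 52, 56), (1, 55, 56), (2, 52, 0), (2, 55, 0), (0, 57, 0), (1, 51, 57), (1, 53, 57),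 (1, 56, 57), (2, 51, 0), (2, 53, 0), (2, 56, 0), (2, 57, 0)]

end Pool.Agent.H780R3.Snark
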