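import Mathlib

set_option linter.all false

/-!
Snarks, hypohamiltonian graphs, and the parameter of Steffen.
-/

namespace Pool.Agent.H780R3.Snark

/-- `G` has a Hamiltonian cycle: a cyclic enumeration `f` of all the vertices by `ℤ / m`, with
`3 ≤ m`, such that consecutive vertices are adjacent. -/
def HasHamiltonianCycle {V : Type} (G : SimpleGraph V) : Prop :=
  ∃ (m : ℕ) (f : ZMod m ≃ V), 3 ≤ m ∧ ∀ i, G.Adj (f i) (f (i + 1))

/-- `G` has no Hamiltonian cycle, but every vertex deleted subgraph has one. -/
def Hypohamiltonian {V : Type} (G : SimpleGraph V) : Prop :=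
  ¬ HasHamiltonianCycle G ∧ ∀ v : V, HasHamiltonianCycle (G.induce {w | w ≠ v})

/-- `G` has a proper edge colouring with `k` colours. -/
def EdgeColourable {V : Type} (G : SimpleGraph V) (k : ℕ) : Prop :=
  ∃ c : Sym2 V → Fin k, ∀ e ∈ G.edgeSet, ∀ e' ∈ G.edgeSet, e ≠ e' → (∃ v, v ∈ e ∧ v ∈ e') →
    c e ≠ c e'

/-- No set of fewer than `k` edges separates two cycles: after deleting fewer than `k` edges, any
two remaining cycles lie in the same component. -/
def CyclicallyEdgeConnected {V : Type} (G : SimpleGraph V) (k : ℕ) : Prop :=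
  ∀ S ⊆ G.edgeSet, S.Finite → S.ncard < k →
    ∀ (a b : V) (p : (G.deleteEdges S).Walk a a) (q : (G.deleteEdges S).Walk b b),
      p.IsCycle → q.IsCycle → (G.deleteEdges S).Reachable a b

/-- A snark: a cubic graph which is cyclically 4-edge-connected, of girth at least 5, and not
3-edge-colourable. -/
structure IsSnark {V : Type} (G : SimpleGraph V) : Prop where
  cubic : ∀ v, (G.neighborSet v).ncard = 3
  cyclic : CyclicallyEdgeConnected G 4
  girth : 5 ≤ G.egirth
  class_two : ¬ EdgeColourable G 3

/-- `mu G k` is the least number of edges left uncovered by `k` perfect matchings. -/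
noncomputable def mu {V : Type} (G : SimpleGraph V) (k : ℕ) : ℕ :=
  sInf {m | ∃ M : Fin k → G.Subgraph, (∀ i, (M i).IsPerfectMatching) ∧
    m = (G.edgeSet \ ⋃ i, (M i).edgeSet).ncard}

end Pool.Agent.H780R3.Snark
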