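import Mathlib

set_option linter.all false

/-!
Base four digits of natural numbers, and a breadth first search through states.
-/

namespace Pool.Agent.H780R3.Snark

/-- the number with digits `f e` in base four -/
def enc (N : ℕ) (f : ℕ → ℕ) : ℕ := ∑ e ∈ Finset.range N, f e * 4 ^ e

theorem enc_lt {N : ℕ} {f : ℕ → ℕ} (h : ∀ e, f e < 4) : enc N f < 4 ^ N := by
  induction N with
  | zero => simp [enc]
  | succ n ih =>
    unfold enc at *
    rw [Finset.sum_range_succ]
    have := h n
    have h2 : f n * 4 ^ n ≤ 3 * 4 ^ n := Nat.mul_le_mul_right _ (by omega)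
    calc _ < 4 ^ n + 3 * 4 ^ n := by omega
      _ = 4 ^ (n + 1) := by ring

/-- the digit number `k` -/
def dg (s k : ℕ) : ℕ := s / 4 ^ k % 4

theorem enc_split {N : ℕ} (f : ℕ → ℕ) {k : ℕ} (hk : k < N) :
    ∃ r, enc N f = enc k f + f k * 4 ^ k + 4 * 4 ^ k * r := by
  induction N with
  | zero => omega
  | succ n ih =>
    have h1 : enc (n + 1) f = enc n f + f n * 4 ^ n := by
      unfold enc; rw [Finset.sum_range_succ]
    by_cases h : k = n
    · subst h
      exact ⟨0, by rw [h1]; ring⟩
    · obtain ⟨r, hr⟩ := ih (by omega)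
      obtain ⟨m, hm⟩ : ∃ m, n = k + 1 + m := ⟨n - (k + 1), by omega⟩
      refine ⟨r + f n * 4 ^ m, ?_⟩
      rw [h1, hr]
      have : (4 : ℕ) ^ n = 4 * 4 ^ k * 4 ^ m := by rw [hm, pow_add, pow_succ]; ring
      rw [this]; ring

theorem enc_digit {N : ℕ} {f : ℕ → ℕ} (h : ∀ e, f e < 4) {k : ℕ} (hk : k < N) :
    dg (enc N f) k = f k := by
  obtain ⟨r, hr⟩ := enc_split f hk
  unfold dg
  rw [hr]
  have h1 : enc k f < 4 ^ k := enc_lt h
  have h2 : enc k f + f k * 4 ^ k + 4 * 4 ^ k * r = enc k f + 4 ^ k * (f k + 4 * r) := by ring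
  rw [h2, Nat.add_mul_div_left _ _ (by positivity), Nat.div_eq_of_lt h1, Nat.zero_add,
    Nat.add_mul_mod_self_left]
  exact Nat.mod_eq_of_lt (h k)

theorem enc_update {N : ℕ} (f : ℕ → ℕ) {k : ℕ} (hk : k < N) (a : ℕ) :
    enc N (Function.update f k a) + f k * 4 ^ k = enc N f + a * 4 ^ k := by
  unfold enc
  have h1 : ∀ g : ℕ → ℕ, ∑ e ∈ Finset.range N, g e * 4 ^ e
      = g k * 4 ^ k + ∑ e ∈ (Finset.range N).erase k, g e * 4 ^ e := by
    intro g
    exact (Finset.add_sum_erase (Finset.range N) (fun e => g e * 4 ^ e)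
      (Finset.mem_range.mpr hk)).symm
  rw [h1, h1 f, Function.update_self]
  have h2 : ∑ e ∈ (Finset.range N).erase k, Function.update f k a e * 4 ^ e
      = ∑ e ∈ (Finset.range N).erase k, f e * 4 ^ e := by
    apply Finset.sum_congr rfl
    intro e he
    rw [Function.update_of_ne (Finset.ne_of_mem_erase he)]
  rw [h2]; ring

/-- insert without repetition -/
def insL (s : ℕ) (L : List ℕ) : List ℕ := if L.elem s then L else s :: L

theorem mem_insL {s t : ℕ} {L : List ℕ} : t ∈ insL s L ↔ t = s ∨ t ∈ L := by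
  unfold insL
  split_ifs with h
  · constructor
    · exact Or.inr
    · rintro (rfl | h')
      · simpa using h
      · exact h'
  · simp

/-- all successors of the states in `L` -/
def nextL (st : ℕ → List ℕ) (L : List ℕ) : List ℕ :=
  L.foldl (fun acc s => (st s).foldl (fun acc t => insL t acc) acc) []

theorem mem_fold1 (M : List ℕ) : ∀ (acc : List ℕ) (t : ℕ), (t ∈ acc ∨ t ∈ M) →
    t ∈ M.foldl (fun acc t => insL t acc) acc := by
  induction M with
  | nil => intro acc t h; simpa using h
  | cons m M ih =>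
    intro acc t h
    rw [List.foldl_cons]
    apply ih
    rcases h with h | h
    · exact Or.inl (mem_insL.mpr (Or.inr h))
    · rcases List.mem_cons.mp h with h | h
      · exact Or.inl (mem_insL.mpr (Or.inl h))
      · exact Or.inr h

theorem mem_fold2 (st : ℕ → List ℕ) (L : List ℕ) : ∀ (acc : List ℕ) (t : ℕ),
    (t ∈ acc ∨ ∃ s ∈ L, t ∈ st s) →
    t ∈ L.foldl (fun acc s => (st s).foldl (fun acc t => insL t acc) acc) acc := by
  induction L with
  | nil => intro acc t h; simpa using h
  | cons m M ih =>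
    intro acc t h
    rw [List.foldl_cons]
    apply ih
    rcases h with h | ⟨s, hs, h⟩
    · exact Or.inl (mem_fold1 _ _ _ (Or.inl h))
    · rcases List.mem_cons.mp hs with rfl | hs
      · exact Or.inl (mem_fold1 _ _ _ (Or.inr h))
      · exact Or.inr ⟨s, hs, h⟩

theorem mem_nextL {st : ℕ → List ℕ} {L : List ℕ} {s t : ℕ} (hs : s ∈ L) (ht : t ∈ st s) :
    t ∈ nextL st L := mem_fold2 st L [] t (Or.inr ⟨s, hs, ht⟩)

/-- run through a list of steps -/
def run {α : Type} (st : α → ℕ → List ℕ) : List α → List ℕ → List ℕ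
  | [], L => L
  | a :: r, L => run st r (nextL (st a) L)

theorem mem_run {α : Type} {st : α → ℕ → List ℕ} {S : Type} (code : S → ℕ) (tr : α → S → S)
    (P : List α → S → Prop)
    (h : ∀ a r g, P (a :: r) g → P r (tr a g) ∧ code (tr a g) ∈ st a (code g)) :
    ∀ (r : List α) (L : List ℕ) (f : S), P r f → code f ∈ L →
      P [] (r.foldl (fun g a => tr a g) f) ∧
        code (r.foldl (fun g a => tr a g) f) ∈ run st r L := by
  intro r
  induction r with
  | nil => intro L f hf hL; exact ⟨hf, hL⟩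
  | cons a r ih =>
    intro L f hf hL
    rw [List.foldl_cons]
    have h1 := h a r f hf
    exact ih _ _ h1.1 (mem_nextL hL h1.2)

end Pool.Agent.H780R3.Snark
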