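import Mathlib
import Pool.Agent.H780R3.Snark.Data
import Pool.Agent.H780R3.Snark.Dp
import Pool.Agent.H780R3.Snark.Defs

set_option linter.all false

namespace Pool.Agent.H780R3.Snark

/-- possible values of an edge, given the present digit -/
def opts (d : ℕ) : List ℕ := if d = 0 then [1, 2, 3] else [d]

/-- add the edge `e` with colour `x`, or remove it -/
def upd (s e x : ℕ) : ℕ := if dg s e = 0 then s + x * 4 ^ e else s - x * 4 ^ e

/-- process a vertex with the edges `a`, `b`, `c` -/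
def stepC (q : ℕ × ℕ × ℕ) (s : ℕ) : List ℕ :=
  (opts (dg s q.1)).flatMap fun x =>
    (opts (dg (upd s q.1 x) q.2.1)).flatMap fun y =>
      if x = y then [] else
        (opts (dg (upd (upd s q.1 x) q.2.1 y) q.2.2)).flatMap fun z =>
          if x = z ∨ y = z then [] else [upd (upd (upd s q.1 x) q.2.1 y) q.2.2 z]

variable (col : ℕ → ℕ)

/-- toggle an edge -/
def tgl (e : ℕ) (f : ℕ → ℕ) : ℕ → ℕ := Function.update f e (if f e = 0 then col e else 0)

/-- the property of a state -/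
def Ok (f : ℕ → ℕ) : Prop := ∀ e, f e = 0 ∨ f e = col e

variable {col}

theorem ok_tgl {f : ℕ → ℕ} (h : Ok col f) (e : ℕ) : Ok col (tgl col e f) := by
  intro k
  unfold tgl
  by_cases hk : k = e
  · subst hk
    rw [Function.update_self]
    split_ifs
    · exact Or.inr rfl
    · exact Or.inl rfl
  · rw [Function.update_of_ne hk]; exact h k

theorem ok_lt (hc : ∀ e, 1 ≤ col e ∧ col e ≤ 3) {f : ℕ → ℕ} (h : Ok col f) : ∀ e, f e < 4 := by
  intro e
  have := hc e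
  rcases h e with h | h <;> omega

theorem upd_eq (hc : ∀ e, 1 ≤ col e ∧ col e ≤ 3) {f : ℕ → ℕ} (h : Ok col f) {e : ℕ} (he : e < 87) :
    upd (enc 87 f) e (col e) = enc 87 (tgl col e f) := by
  unfold upd
  rw [enc_digit (ok_lt hc h) he]
  have h1 := enc_update f he (if f e = 0 then col e else 0)
  unfold tgl
  have h2 := hc e
  by_cases h0 : f e = 0
  · rw [if_pos h0] at h1 ⊢
    rw [if_pos h0]
    rw [h0] at h1
    omega
  · rw [if_neg h0] at h1 ⊢
    rw [if_neg h0]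
    have h3 : f e = col e := by
      rcases h e with h | h
      · exact absurd h h0
      · exact h
    rw [h3] at h1
    omega

theorem mem_opts (hc : ∀ e, 1 ≤ col e ∧ col e ≤ 3) {f : ℕ → ℕ} (h : Ok col f) {e : ℕ}
    (he : e < 87) : col e ∈ opts (dg (enc 87 f) e) := by
  rw [enc_digit (ok_lt hc h) he]
  unfold opts
  have := hc e
  rcases h e with h | h
  · rw [h, if_pos rfl]
    have : col e = 1 ∨ col e = 2 ∨ col e = 3 := by omega
    simpa using this
  · rw [h, if_neg (by omega)]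
    simp

theorem step_ok (hc : ∀ e, 1 ≤ col e ∧ col e ≤ 3) {q : ℕ × ℕ × ℕ}
    (h1 : q.1 < 87) (h2 : q.2.1 < 87) (h3 : q.2.2 < 87)
    (n1 : col q.1 ≠ col q.2.1) (n2 : col q.1 ≠ col q.2.2) (n3 : col q.2.1 ≠ col q.2.2)
    {f : ℕ → ℕ} (h : Ok col f) :
    Ok col (tgl col q.2.2 (tgl col q.2.1 (tgl col q.1 f))) ∧
      enc 87 (tgl col q.2.2 (tgl col q.2.1 (tgl col q.1 f))) ∈ stepC q (enc 87 f) := by
  have k1 := ok_tgl h q.1
  have k2 := ok_tgl k1 q.2.1
  refine ⟨ok_tgl k2 q.2.2, ?_⟩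
  unfold stepC
  refine List.mem_flatMap.mpr ⟨col q.1, mem_opts hc h h1, ?_⟩
  rw [upd_eq hc h h1]
  refine List.mem_flatMap.mpr ⟨col q.2.1, mem_opts hc k1 h2, ?_⟩
  rw [if_neg n1, upd_eq hc k1 h2]
  refine List.mem_flatMap.mpr ⟨col q.2.2, mem_opts hc k2 h3, ?_⟩
  rw [if_neg (by tauto), upd_eq hc k2 h3]
  simp

/-- the vertices except the first, as triples of edges -/
def trip : List (ℕ × ℕ × ℕ) := (e0.zip (e1.zip e2)).tail

/-- the first state -/
def start : ℕ := 1 * 4 ^ (e0.headD 0) + 2 * 4 ^ (e1.headD 0) + 3 * 4 ^ (e2.headD 0)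

theorem run_nil : run stepC trip [start] = [] := by decide +kernel

theorem start_eq : upd (upd (upd 0 (e0.headD 0) 1) (e1.headD 0) 2) (e2.headD 0) 3 = start := by
  decide +kernel

theorem trip_mem : ∀ q ∈ trip, ∃ v : Fin 58,
    q = (e0.getD v.val 0, e1.getD v.val 0, e2.getD v.val 0) := by decide +kernel

theorem e_lt : ∀ v : Fin 58, e0.getD v.val 0 < 87 ∧ e1.getD v.val 0 < 87 ∧ e2.getD v.val 0 < 87 := by
  decide +kernel

/-- the ends of the edges at a vertex -/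
theorem ends_eq : ∀ v : Fin 58,
    ((ea.getD (e0.getD v.val 0) 0 = v ∧ eb.getD (e0.getD v.val 0) 0 = n0 v) ∨
      (eb.getD (e0.getD v.val 0) 0 = v ∧ ea.getD (e0.getD v.val 0) 0 = n0 v)) ∧
    ((ea.getD (e1.getD v.val 0) 0 = v ∧ eb.getD (e1.getD v.val 0) 0 = n1 v) ∨
      (eb.getD (e1.getD v.val 0) 0 = v ∧ ea.getD (e1.getD v.val 0) 0 = n1 v)) ∧
    ((ea.getD (e2.getD v.val 0) 0 = v ∧ eb.getD (e2.getD v.val 0) 0 = n2 v) ∨
      (eb.getD (e2.getD v.val 0) 0 = v ∧ ea.getD (e2.getD v.val 0) 0 = n2 v)) := by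
  decide +kernel

/-- the edge number `e` -/
def edge (e : ℕ) : Sym2 (Fin 58) := s(ea.getD e 0, eb.getD e 0)

theorem edge_eq (v : Fin 58) : edge (e0.getD v.val 0) = s(v, n0 v) ∧
    edge (e1.getD v.val 0) = s(v, n1 v) ∧ edge (e2.getD v.val 0) = s(v, n2 v) := by
  obtain ⟨h1, h2, h3⟩ := ends_eq v
  unfold edge
  refine ⟨?_, ?_, ?_⟩
  · rcases h1 with ⟨a, b⟩ | ⟨a, b⟩
    · rw [a, b]
    · rw [a, b, Sym2.eq_swap]
  · rcases h2 with ⟨a, b⟩ | ⟨a, b⟩
    · rw [a, b]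
    · rw [a, b, Sym2.eq_swap]
  · rcases h3 with ⟨a, b⟩ | ⟨a, b⟩
    · rw [a, b]
    · rw [a, b, Sym2.eq_swap]

/-- The graph is not 3-edge-colourable. -/
theorem not_colourable : ¬ EdgeColourable G 3 := by
  rintro ⟨c, hc⟩
  -- colours at a vertex
  have hv : ∀ v : Fin 58, c s(v, n0 v) ≠ c s(v, n1 v) ∧ c s(v, n0 v) ≠ c s(v, n2 v) ∧
      c s(v, n1 v) ≠ c s(v, n2 v) := by
    intro v
    obtain ⟨k1, k2, k3⟩ := n_ne v
    have a0 : s(v, n0 v) ∈ G.edgeSet := G_adj.mpr (Or.inl rfl)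
    have a1 : s(v, n1 v) ∈ G.edgeSet := G_adj.mpr (Or.inr (Or.inl rfl))
    have a2 : s(v, n2 v) ∈ G.edgeSet := G_adj.mpr (Or.inr (Or.inr rfl))
    refine ⟨hc _ a0 _ a1 ?_ ⟨v, by simp, by simp⟩, hc _ a0 _ a2 ?_ ⟨v, by simp, by simp⟩,
      hc _ a1 _ a2 ?_ ⟨v, by simp, by simp⟩⟩
    · intro h; exact k1 (Sym2.congr_right.mp h)
    · intro h; exact k2 (Sym2.congr_right.mp h)
    · intro h; exact k3 (Sym2.congr_right.mp h)
  -- renaming the colours
  set x0 := c s(0, n0 0) with hx0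
  set x1 := c s(0, n1 0) with hx1
  set x2 := c s(0, n2 0) with hx2
  obtain ⟨h01, h02, h12⟩ := hv 0
  rw [← hx0, ← hx1] at h01
  rw [← hx0, ← hx2] at h02
  rw [← hx1, ← hx2] at h12
  let π : Fin 3 → ℕ := fun y => if y = x0 then 1 else if y = x1 then 2 else 3
  have hπ0 : π x0 = 1 := if_pos rfl
  have hπ1 : π x1 = 2 := by
    show (if x1 = x0 then 1 else if x1 = x1 then 2 else 3) = 2
    rw [if_neg (Ne.symm h01), if_pos rfl]
  have hπ2 : π x2 = 3 := by
    show (if x2 = x0 then 1 else if x2 = x1 then 2 else 3) = 3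
    rw [if_neg (Ne.symm h02), if_neg (Ne.symm h12)]
  have hall : ∀ y : Fin 3, y = x0 ∨ y = x1 ∨ y = x2 := by
    intro y
    revert h01 h02 h12
    generalize x0 = a; generalize x1 = b; generalize x2 = d
    revert y a b d
    decide
  have hinj : ∀ y z : Fin 3, y ≠ z → π y ≠ π z := by
    intro y z hyz
    rcases hall y with rfl | rfl | rfl <;> rcases hall z with rfl | rfl | rfl <;>
      simp_all
  have hrange : ∀ y : Fin 3, 1 ≤ π y ∧ π y ≤ 3 := by
    intro y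
    rcases hall y with h | h | h <;> rw [h] <;> omega
  let col : ℕ → ℕ := fun e => π (c (edge e))
  have hcol : ∀ e, 1 ≤ col e ∧ col e ≤ 3 := fun e => hrange _
  have hcv : ∀ v : Fin 58, col (e0.getD v.val 0) = π (c s(v, n0 v)) ∧
      col (e1.getD v.val 0) = π (c s(v, n1 v)) ∧ col (e2.getD v.val 0) = π (c s(v, n2 v)) := by
    intro v
    obtain ⟨k0, k1, k2⟩ := edge_eq v
    refine ⟨?_, ?_, ?_⟩
    · show π (c (edge _)) = _
      rw [k0]
    · show π (c (edge _)) = _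
      rw [k1]
    · show π (c (edge _)) = _
      rw [k2]
  -- the start
  have hok0 : Ok col (fun _ => 0) := fun e => Or.inl rfl
  have henc0 : enc 87 (fun _ => 0) = 0 := by simp [enc]
  obtain ⟨l0, l1, l2⟩ := e_lt 0
  obtain ⟨c0, c1, c2⟩ := hcv 0
  have c0' : col (e0.headD 0) = 1 := by
    have : e0.headD 0 = e0.getD (0 : Fin 58).val 0 := rfl
    rw [this, c0]; exact hπ0
  have c1' : col (e1.headD 0) = 2 := by
    have : e1.headD 0 = e1.getD (0 : Fin 58).val 0 := rfl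
    rw [this, c1]; exact hπ1
  have c2' : col (e2.headD 0) = 3 := by
    have : e2.headD 0 = e2.getD (0 : Fin 58).val 0 := rfl
    rw [this, c2]; exact hπ2
  have s1 := upd_eq hcol hok0 (e := e0.headD 0) l0
  have ok1 := ok_tgl hok0 (e0.headD 0)
  have s2 := upd_eq hcol ok1 (e := e1.headD 0) l1
  have ok2 := ok_tgl ok1 (e1.headD 0)
  have s3 := upd_eq hcol ok2 (e := e2.headD 0) l2
  have ok3 := ok_tgl ok2 (e2.headD 0)
  rw [← s2, ← s1, henc0, c0', c1', c2', start_eq] at s3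
  have hrun := mem_run (st := stepC) (S := ℕ → ℕ) (enc 87)
    (fun q f => tgl col q.2.2 (tgl col q.2.1 (tgl col q.1 f)))
    (fun r f => Ok col f ∧ ∀ q ∈ r, ∃ v : Fin 58,
      q = (e0.getD v.val 0, e1.getD v.val 0, e2.getD v.val 0)) ?_ trip [start]
    (tgl col (e2.headD 0) (tgl col (e1.headD 0) (tgl col (e0.headD 0) (fun _ => 0))))
    ⟨ok3, trip_mem⟩ ?_
  · rw [run_nil] at hrun
    exact absurd hrun.2 (List.not_mem_nil)
  · rintro q r g ⟨hg, hq⟩
    obtain ⟨v, hqv⟩ := hq q List.mem_cons_self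
    obtain ⟨b0, b1, b2⟩ := e_lt v
    obtain ⟨d0, d1, d2⟩ := hcv v
    obtain ⟨m1, m2, m3⟩ := hv v
    have hs := step_ok (q := q) hcol (by rw [hqv]; exact b0) (by rw [hqv]; exact b1)
      (by rw [hqv]; exact b2)
      (by rw [hqv]; show col (e0.getD v.val 0) ≠ col (e1.getD v.val 0); rw [d0, d1]; exact hinj _ _ m1)
      (by rw [hqv]; show col (e0.getD v.val 0) ≠ col (e2.getD v.val 0); rw [d0, d2]; exact hinj _ _ m2)
      (by rw [hqv]; show col (e1.getD v.val 0) ≠ col (e2.getD v.val 0); rw [d1, d2]; exact hinj _ _ m3)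
      hg
    exact ⟨⟨hs.1, fun q' hq' => hq q' (List.mem_cons_of_mem _ hq')⟩, hs.2⟩
  · rw [← s3]; exact List.mem_singleton_self _

end Pool.Agent.H780R3.Snark
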