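import Mathlib
import Pool.Agent.H780R3.Snark.Data
import Pool.Agent.H780R3.Snark.Dp
import Pool.Agent.H780R3.Snark.Defs

set_option linter.all false

namespace Pool.Agent.H780R3.Snark

/-- process an event of the search for small edge cuts -/
def stepX (q : ℕ × ℕ × ℕ) (s : ℕ) : List ℕ :=
  if q.1 = 0 then
    [s - dg s q.2.1 * 4 ^ q.2.1 + 1 * 4 ^ q.2.1 + (if dg s 60 < 2 then 4 ^ 60 else 0),
      s - dg s q.2.1 * 4 ^ q.2.1 + 2 * 4 ^ q.2.1 + (if dg s 59 < 2 then 4 ^ 59 else 0)]
  else if q.1 = 1 then
    (if dg s q.2.1 = 0 ∨ dg s q.2.2 = 0 ∨ dg s q.2.1 = dg s q.2.2 then [s]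
      else if dg s 58 < 3 then [s + 4 ^ 58] else [])
  else [s - dg s q.2.1 * 4 ^ q.2.1]

theorem run_cut : ∀ s ∈ run stepX events [0], dg s 59 < 2 ∨ dg s 60 < 2 := by decide +kernel

/-- the label of a vertex -/
def lab (X : ℕ → Bool) (v : ℕ) : ℕ := if X v then 2 else 1

/-- the actual sequence of states -/
def trX (X : ℕ → Bool) (q : ℕ × ℕ × ℕ) (f : ℕ → ℕ) : ℕ → ℕ :=
  if q.1 = 0 then
    (if X q.2.1 then
      Function.update (Function.update f q.2.1 2) 59 (if f 59 < 2 then f 59 + 1 else f 59)
    else
      Function.update (Function.update f q.2.1 1) 60 (if f 60 < 2 then f 60 + 1 else f 60))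
  else if q.1 = 1 then
    (if f q.2.1 = 0 ∨ f q.2.2 = 0 ∨ f q.2.1 = f q.2.2 then f
      else Function.update f 58 (f 58 + 1))
  else Function.update f q.2.1 0

/-- number of cut edges among the events -/
def cutc (X : ℕ → Bool) (r : List (ℕ × ℕ × ℕ)) : ℕ :=
  r.countP fun q => q.1 == 1 && (X q.2.1 != X q.2.2)

/-- number of vertices with label `b` among the events -/
def cnt (X : ℕ → Bool) (b : Bool) (r : List (ℕ × ℕ × ℕ)) : ℕ :=
  r.countP fun q => q.1 == 0 && (X q.2.1 == b)

/-- the invariant -/
def PX (X : ℕ → Bool) (r : List (ℕ × ℕ × ℕ)) (f : ℕ → ℕ) : Prop :=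
  (∀ e, f e < 4) ∧ (∀ v < 58, f v = 0 ∨ f v = lab X v) ∧ f 58 + cutc X r ≤ 3 ∧
    2 ≤ f 59 + cnt X true r ∧ 2 ≤ f 60 + cnt X false r ∧ ∀ q ∈ r, q.2.1 < 58 ∧ q.2.2 < 58

theorem cutc_cons (X : ℕ → Bool) (q : ℕ × ℕ × ℕ) (r : List (ℕ × ℕ × ℕ)) :
    cutc X (q :: r) = cutc X r + if (q.1 == 1 && (X q.2.1 != X q.2.2)) = true then 1 else 0 := by
  unfold cutc; rw [List.countP_cons]

theorem cnt_cons (X : ℕ → Bool) (b : Bool) (q : ℕ × ℕ × ℕ) (r : List (ℕ × ℕ × ℕ)) :
    cnt X b (q :: r) = cnt X b r + if (q.1 == 0 && (X q.2.1 == b)) = true then 1 else 0 := by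
  unfold cnt; rw [List.countP_cons]

theorem enc_update' {N : ℕ} {f : ℕ → ℕ} {k : ℕ} (hk : k < N) (h : ∀ e, f e < 4) (a : ℕ) :
    enc N (Function.update f k a) = enc N f - dg (enc N f) k * 4 ^ k + a * 4 ^ k := by
  rw [enc_digit h hk]
  have h1 := enc_update f hk a
  obtain ⟨r, hr⟩ := enc_split f hk
  have h2 : f k * 4 ^ k ≤ enc N f := by omega
  omega

theorem update_lt {f : ℕ → ℕ} (h : ∀ e, f e < 4) {k a : ℕ} (ha : a < 4) :
    ∀ e, Function.update f k a e < 4 := by
  intro e
  by_cases he : e = k
  · subst he; rw [Function.update_self]; exact ha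
  · rw [Function.update_of_ne he]; exact h e

theorem stepX_ok (X : ℕ → Bool) (q : ℕ × ℕ × ℕ) (r : List (ℕ × ℕ × ℕ)) (f : ℕ → ℕ)
    (h : PX X (q :: r) f) : PX X r (trX X q f) ∧ enc 61 (trX X q f) ∈ stepX q (enc 61 f) := by
  obtain ⟨h4, hl, hc, ht, hf, hw⟩ := h
  have hq := hw q List.mem_cons_self
  have hw' : ∀ q' ∈ r, q'.2.1 < 58 ∧ q'.2.2 < 58 := fun q' hq' => hw q' (List.mem_cons_of_mem _ hq')
  rw [cutc_cons] at hc
  rw [cnt_cons] at ht hf
  have d59 : dg (enc 61 f) 59 = f 59 := enc_digit h4 (by norm_num)
  have d60 : dg (enc 61 f) 60 = f 60 := enc_digit h4 (by norm_num)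
  have d58 : dg (enc 61 f) 58 = f 58 := enc_digit h4 (by norm_num)
  have e1 : q.2.1 ≠ 59 := by omega
  have e2 : q.2.1 ≠ 60 := by omega
  have e3 : q.2.1 ≠ 58 := by omega
  by_cases h0 : q.1 = 0
  · have hc' : f 58 + cutc X r ≤ 3 := by omega
    by_cases hX : X q.2.1 = true
    · -- label 2
      have htr : trX X q f = Function.update (Function.update f q.2.1 2) 59
          (if f 59 < 2 then f 59 + 1 else f 59) := by
        unfold trX; rw [if_pos h0, if_pos hX]
      rw [htr]
      have k1 := update_lt h4 (k := q.2.1) (a := 2) (by norm_num)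
      have k59 : Function.update f q.2.1 2 59 = f 59 := Function.update_of_ne (Ne.symm e1) _ _
      have h59 := h4 59
      refine ⟨⟨update_lt k1 (by split_ifs <;> omega), ?_, ?_, ?_, ?_, hw'⟩, ?_⟩
      · intro v hv
        rw [Function.update_of_ne (by omega)]
        by_cases hvq : v = q.2.1
        · subst hvq; right; rw [Function.update_self]; unfold lab; rw [if_pos hX]
        · rw [Function.update_of_ne hvq]; exact hl v hv
      · rw [Function.update_of_ne (by norm_num), Function.update_of_ne (Ne.symm e3)]; exact hc'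
      · rw [Function.update_self]
        rw [h0, hX] at ht
        simp only [beq_self_eq_true, Bool.and_self, if_true] at ht
        split_ifs <;> omega
      · rw [Function.update_of_ne (by norm_num), Function.update_of_ne (Ne.symm e2)]
        rw [h0, hX] at hf
        simpa using hf
      · unfold stepX
        rw [if_pos h0]
        refine List.mem_cons_of_mem _ (List.mem_cons.mpr (Or.inl ?_))
        have u1 := enc_update (N := 61) (Function.update f q.2.1 2) (k := 59) (by norm_num)
          (if f 59 < 2 then f 59 + 1 else f 59)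
        rw [k59] at u1
        rw [enc_update' (show q.2.1 < 61 by omega) h4] at u1
        rw [d59]
        split_ifs at u1 ⊢ with h59'
        · omega
        · omega
    · have htr : trX X q f = Function.update (Function.update f q.2.1 1) 60
          (if f 60 < 2 then f 60 + 1 else f 60) := by
        unfold trX; rw [if_pos h0, if_neg hX]
      rw [htr]
      have hXf : X q.2.1 = false := by simpa using hX
      have k1 := update_lt h4 (k := q.2.1) (a := 1) (by norm_num)
      have k60 : Function.update f q.2.1 1 60 = f 60 := Function.update_of_ne (Ne.symm e2) _ _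
      have h60 := h4 60
      refine ⟨⟨update_lt k1 (by split_ifs <;> omega), ?_, ?_, ?_, ?_, hw'⟩, ?_⟩
      · intro v hv
        rw [Function.update_of_ne (by omega)]
        by_cases hvq : v = q.2.1
        · subst hvq; right; rw [Function.update_self]; unfold lab; rw [if_neg hX]
        · rw [Function.update_of_ne hvq]; exact hl v hv
      · rw [Function.update_of_ne (by norm_num), Function.update_of_ne (Ne.symm e3)]; exact hc'
      · rw [Function.update_of_ne (by norm_num), Function.update_of_ne (Ne.symm e1)]
        rw [h0, hXf] at ht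
        simpa using ht
      · rw [Function.update_self]
        rw [h0, hXf] at hf
        simp only [beq_self_eq_true, Bool.and_self, if_true] at hf
        split_ifs <;> omega
      · unfold stepX
        rw [if_pos h0]
        refine List.mem_cons.mpr (Or.inl ?_)
        have u1 := enc_update (N := 61) (Function.update f q.2.1 1) (k := 60) (by norm_num)
          (if f 60 < 2 then f 60 + 1 else f 60)
        rw [k60] at u1
        rw [enc_update' (show q.2.1 < 61 by omega) h4] at u1
        rw [d60]
        split_ifs at u1 ⊢ with h60'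
        · omega
        · omega
  · have z0 : (q.1 == 0) = false := by simpa using h0
    rw [z0] at ht hf
    simp only [Bool.false_and, if_false, Nat.add_zero, Bool.false_eq_true] at ht hf
    by_cases h1 : q.1 = 1
    · have du : dg (enc 61 f) q.2.1 = f q.2.1 := enc_digit h4 (by omega)
      have dv : dg (enc 61 f) q.2.2 = f q.2.2 := enc_digit h4 (by omega)
      by_cases hcase : f q.2.1 = 0 ∨ f q.2.2 = 0 ∨ f q.2.1 = f q.2.2
      · have htr : trX X q f = f := by
          unfold trX; rw [if_neg h0, if_pos h1, if_pos hcase]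
        rw [htr]
        refine ⟨⟨h4, hl, by omega, ht, hf, hw'⟩, ?_⟩
        unfold stepX
        rw [if_neg h0, if_pos h1, du, dv, if_pos hcase]
        exact List.mem_singleton_self _
      · have htr : trX X q f = Function.update f 58 (f 58 + 1) := by
          unfold trX; rw [if_neg h0, if_pos h1, if_neg hcase]
        rw [htr]
        push Not at hcase
        obtain ⟨g1, g2, g3⟩ := hcase
        have hne : X q.2.1 ≠ X q.2.2 := by
          intro hXX
          rcases hl _ hq.1 with h | h
          · exact g1 h
          rcases hl _ hq.2 with h' | h'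
          · exact g2 h'
          apply g3
          rw [h, h']
          unfold lab
          rw [hXX]
        have hcc : (q.1 == 1 && (X q.2.1 != X q.2.2)) = true := by
          simp [h1, hne]
        rw [if_pos hcc] at hc
        have h58 := h4 58
        refine ⟨⟨update_lt h4 (by omega), ?_, ?_, ?_, ?_, hw'⟩, ?_⟩
        · intro v hv
          rw [Function.update_of_ne (by omega)]; exact hl v hv
        · rw [Function.update_self]; omega
        · rw [Function.update_of_ne (by norm_num)]; exact ht
        · rw [Function.update_of_ne (by norm_num)]; exact hf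
        · unfold stepX
          rw [if_neg h0, if_pos h1, du, dv, if_neg (by tauto), d58, if_pos (by omega)]
          have u1 := enc_update (N := 61) f (k := 58) (by norm_num) (f 58 + 1)
          rw [List.mem_singleton]
          omega
    · have htr : trX X q f = Function.update f q.2.1 0 := by
        unfold trX; rw [if_neg h0, if_neg h1]
      rw [htr]
      refine ⟨⟨update_lt h4 (by norm_num), ?_, ?_, ?_, ?_, hw'⟩, ?_⟩
      · intro v hv
        by_cases hvq : v = q.2.1
        · subst hvq; left; rw [Function.update_self]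
        · rw [Function.update_of_ne hvq]; exact hl v hv
      · rw [Function.update_of_ne (Ne.symm e3)]; omega
      · rw [Function.update_of_ne (Ne.symm e1)]; exact ht
      · rw [Function.update_of_ne (Ne.symm e2)]; exact hf
      · unfold stepX
        rw [if_neg h0, if_neg h1, enc_update' (show q.2.1 < 61 by omega) h4]
        simp

/-- the list of edges -/
def EL : List (Fin 58 × Fin 58) := ea.zip eb

theorem ev_edges : (events.filter (fun q => q.1 == 1)).map (fun q => q.2) =
    EL.map (fun e => (e.1.val, e.2.val)) := by decide +kernel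

theorem ev_verts : (events.filter (fun q => q.1 == 0)).map (fun q => q.2.1) =
    List.range 58 := by decide +kernel

theorem ev_wf : ∀ q ∈ events, q.2.1 < 58 ∧ q.2.2 < 58 := by decide +kernel

theorem EL_nodup : (EL.map (fun e => s(e.1, e.2))).Nodup := by decide +kernel

theorem EL_adj : ∀ e ∈ EL, G.Adj e.1 e.2 := by decide +kernel

theorem cnt_events (X : ℕ → Bool) (b : Bool) :
    cnt X b events = (List.range 58).countP (fun v => X v == b) := by
  rw [← ev_verts, List.countP_map]
  unfold cnt
  rw [List.countP_filter]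
  congr 1
  funext q
  simp [Bool.and_comm]

theorem cutc_events (X : ℕ → Bool) :
    cutc X events = EL.countP (fun e => X e.1.val != X e.2.val) := by
  have h1 : EL.countP (fun e => X e.1.val != X e.2.val) =
      (EL.map (fun e => (e.1.val, e.2.val))).countP (fun p => X p.1 != X p.2) := by
    rw [List.countP_map]; rfl
  rw [h1, ← ev_edges, List.countP_map]
  unfold cutc
  rw [List.countP_filter]
  congr 1
  funext q
  simp [Bool.and_comm]

theorem two_le_count {X : ℕ → Bool} {b : Bool} {u v : ℕ} (hu : u < 58) (hv : v < 58)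
    (huv : u ≠ v) (h1 : X u = b) (h2 : X v = b) :
    2 ≤ (List.range 58).countP (fun v => X v == b) := by
  rw [List.countP_eq_length_filter]
  have hnd : ((List.range 58).filter (fun v => X v == b)).Nodup := List.nodup_range.filter _
  rw [← List.toFinset_card_of_nodup hnd]
  have : 1 < ((List.range 58).filter (fun v => X v == b)).toFinset.card := by
    rw [Finset.one_lt_card]
    refine ⟨u, ?_, v, ?_, huv⟩
    · simp [hu, h1]
    · simp [hv, h2]
  omega

/-- Small edge cuts are trivial. -/
theorem no_small_cut (X : ℕ → Bool) (hcut : EL.countP (fun e => X e.1.val != X e.2.val) ≤ 3)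
    {u v u' v' : ℕ} (hu : u < 58) (hv : v < 58) (huv : u ≠ v) (hu' : u' < 58) (hv' : v' < 58)
    (huv' : u' ≠ v') (h1 : X u = true) (h2 : X v = true) (h3 : X u' = false) (h4 : X v' = false) :
    False := by
  have hP : PX X events (fun _ => 0) := by
    refine ⟨fun _ => by norm_num, fun _ _ => Or.inl rfl, ?_, ?_, ?_, ev_wf⟩
    · rw [cutc_events]; simpa using hcut
    · rw [cnt_events]; simpa using two_le_count hu hv huv h1 h2
    · rw [cnt_events]; simpa using two_le_count hu' hv' huv' h3 h4
  have henc0 : enc 61 (fun _ => 0) = 0 := by simp [enc]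
  obtain ⟨⟨k4, -, -, k59, k60, -⟩, hm⟩ := mem_run (st := stepX) (enc 61) (trX X) (PX X)
    (fun a r g h => stepX_ok X a r g h) events [0] (fun _ => 0) hP
    (by rw [henc0]; exact List.mem_singleton_self _)
  have h5 := run_cut _ hm
  rw [enc_digit k4 (by norm_num), enc_digit k4 (by norm_num)] at h5
  have z1 : cnt X true [] = 0 := rfl
  have z2 : cnt X false [] = 0 := rfl
  rw [z1] at k59
  rw [z2] at k60
  omega

theorem exists_adj {V : Type} {H : SimpleGraph V} {a : V} {p : H.Walk a a} (hp : p.IsCycle) :
    ∃ a', H.Adj a a' := by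
  cases p with
  | nil => exact absurd hp SimpleGraph.Walk.IsCycle.not_of_nil
  | cons h p' => exact ⟨_, h⟩

theorem cyclic4 : CyclicallyEdgeConnected G 4 := by
  classical
  intro S hS hfin hcard a b p q hp hq
  by_contra hab
  set H := G.deleteEdges S with hH
  let X : ℕ → Bool := fun k => if h : k < 58 then decide (H.Reachable a ⟨k, h⟩) else false
  have hX : ∀ v : Fin 58, X v.val = decide (H.Reachable a v) := by
    intro v
    show (if h : v.val < 58 then decide (H.Reachable a ⟨v.val, h⟩) else false) = _
    rw [dif_pos v.isLt]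
  have hstep : ∀ x y : Fin 58, H.Adj x y → (H.Reachable a x ↔ H.Reachable a y) := by
    intro x y hxy
    exact ⟨fun h => h.trans hxy.reachable, fun h => h.trans hxy.symm.reachable⟩
  -- the cut
  have hcut : EL.countP (fun e => X e.1.val != X e.2.val) ≤ 3 := by
    rw [List.countP_eq_length_filter]
    set D := EL.filter (fun e => X e.1.val != X e.2.val) with hD
    have hnd : (D.map (fun e => s(e.1, e.2))).Nodup := by
      refine List.Nodup.sublist ?_ EL_nodup
      exact (List.filter_sublist).map _
    have hsub : ((D.map (fun e => s(e.1, e.2))).toFinset : Set (Sym2 (Fin 58))) ⊆ S := by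
      intro e he
      simp only [Finset.mem_coe, List.mem_toFinset, List.mem_map] at he
      obtain ⟨⟨x, y⟩, hxy, rfl⟩ := he
      rw [hD, List.mem_filter] at hxy
      obtain ⟨hxy1, hxy2⟩ := hxy
      by_contra hnS
      have hadj : G.Adj x y := EL_adj _ hxy1
      have hHadj : H.Adj x y := by
        rw [hH, SimpleGraph.deleteEdges_adj]
        exact ⟨hadj, hnS⟩
      have := hstep x y hHadj
      simp only [bne_iff_ne, ne_eq] at hxy2
      apply hxy2
      rw [hX, hX]
      simp only [decide_eq_decide]
      exact this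
    have h1 : (D.map (fun e => s(e.1, e.2))).toFinset.card = D.length := by
      rw [List.toFinset_card_of_nodup hnd, List.length_map]
    have h2 := Set.ncard_le_ncard hsub hfin
    rw [Set.ncard_coe_finset, h1] at h2
    omega
  obtain ⟨a', haa'⟩ : ∃ a', H.Adj a a' := exists_adj hp
  obtain ⟨b', hbb'⟩ : ∃ b', H.Adj b b' := exists_adj hq
  refine no_small_cut X hcut a.isLt a'.isLt (fun h => haa'.ne (Fin.ext h)) b.isLt b'.isLt
    (fun h => hbb'.ne (Fin.ext h)) ?_ ?_ ?_ ?_
  · rw [hX]; simp
  · rw [hX]; simp only [decide_eq_true_eq]; exact haa'.reachable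
  · rw [hX]; simp only [decide_eq_false_iff_not]; exact hab
  · rw [hX]; simp only [decide_eq_false_iff_not]
    intro h; exact hab ((hstep b b' hbb').mpr h)

end Pool.Agent.H780R3.Snark
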