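import Mathlib
import Pool.Agent.H780R3.Snark.Data
import Pool.Agent.H780R3.Snark.Defs

set_option linter.all false

namespace Pool.Agent.H780R3.Snark

theorem cubic (v : Fin 58) : (G.neighborSet v).ncard = 3 := by
  have h : G.neighborSet v = {n0 v, n1 v, n2 v} := by
    ext w
    simp only [SimpleGraph.mem_neighborSet, G_adj, Set.mem_insert_iff, Set.mem_singleton_iff]
  rw [h]
  obtain ⟨a, b, c⟩ := n_ne v
  rw [Set.ncard_eq_three]
  exact ⟨_, _, _, a, b, c, rfl⟩

theorem no_tri : ∀ (v : Fin 58) (i j : Fin 3), nn (nn v i) j = v ∨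
    ∀ k, nn (nn (nn v i) j) k ≠ v := by decide +kernel

theorem no_quad : ∀ (v : Fin 58) (i j k : Fin 3), nn (nn v i) j = v ∨
    nn (nn (nn v i) j) k = nn v i ∨ ∀ l, nn (nn (nn (nn v i) j) k) l ≠ v := by decide +kernel

theorem no_hex : ∀ (v : Fin 58) (i j : Fin 3), nn (nn v i) j = v ∨
    ∀ k, nn (nn (nn v i) j) k = nn v i ∨ ∀ l, nn (nn (nn (nn v i) j) k) l = nn (nn v i) j ∨
      ∀ m, nn (nn (nn (nn (nn v i) j) k) l) m = nn (nn (nn v i) j) k ∨
        ∀ r, nn (nn (nn (nn (nn (nn v i) j) k) l) m) r ≠ v := by decide +kernel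

theorem tri {a b c : Fin 58} (h1 : G.Adj a b) (h2 : G.Adj b c) (h3 : G.Adj c a) : False := by
  obtain ⟨i, rfl⟩ := adj_iff_nn.mp h1
  obtain ⟨j, rfl⟩ := adj_iff_nn.mp h2
  obtain ⟨k, hk⟩ := adj_iff_nn.mp h3
  rcases no_tri a i j with h | h
  · exact h3.ne h
  · exact h k hk.symm

theorem quad {a b c d : Fin 58} (h1 : G.Adj a b) (h2 : G.Adj b c) (h3 : G.Adj c d)
    (h4 : G.Adj d a) (hac : a ≠ c) (hbd : b ≠ d) : False := by
  obtain ⟨i, rfl⟩ := adj_iff_nn.mp h1
  obtain ⟨j, rfl⟩ := adj_iff_nn.mp h2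
  obtain ⟨k, rfl⟩ := adj_iff_nn.mp h3
  obtain ⟨l, hl⟩ := adj_iff_nn.mp h4
  rcases no_quad a i j k with h | h | h
  · exact hac h.symm
  · exact hbd h.symm
  · exact h l hl.symm

theorem hex {a b c d e f : Fin 58} (h1 : G.Adj a b) (h2 : G.Adj b c) (h3 : G.Adj c d)
    (h4 : G.Adj d e) (h5 : G.Adj e f) (h6 : G.Adj f a) (hac : a ≠ c) (hbd : b ≠ d) (hce : c ≠ e)
    (hdf : d ≠ f) : False := by
  obtain ⟨i, rfl⟩ := adj_iff_nn.mp h1
  obtain ⟨j, rfl⟩ := adj_iff_nn.mp h2
  obtain ⟨k, rfl⟩ := adj_iff_nn.mp h3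
  obtain ⟨l, rfl⟩ := adj_iff_nn.mp h4
  obtain ⟨m, rfl⟩ := adj_iff_nn.mp h5
  obtain ⟨r, hr⟩ := adj_iff_nn.mp h6
  rcases no_hex a i j with h | h
  · exact hac h.symm
  rcases h k with h | h
  · exact hbd h.symm
  rcases h l with h | h
  · exact hce h.symm
  rcases h m with h | h
  · exact hdf h.symm
  exact h r hr.symm

theorem girth5 : 5 ≤ G.egirth := by
  rw [SimpleGraph.le_egirth]
  intro a w hw
  have h3 := hw.three_le_length
  by_contra hlt
  have hlt' : w.length < 5 := by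
    have : ¬ ((5 : ℕ) : ℕ∞) ≤ (w.length : ℕ∞) := hlt
    rw [Nat.cast_le] at this
    omega
  have hadj : ∀ i, i < w.length → G.Adj (w.getVert i) (w.getVert (i + 1)) := fun i hi =>
    w.adj_getVert_succ hi
  have hlast : w.getVert w.length = w.getVert 0 := w.getVert_length.trans w.getVert_zero.symm
  have hcase : w.length = 3 ∨ w.length = 4 := by omega
  rcases hcase with hl | hl
  · have a0 : G.Adj (w.getVert 0) (w.getVert 1) := hadj 0 (by omega)
    have a1 : G.Adj (w.getVert 1) (w.getVert 2) := hadj 1 (by omega)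
    have a2 : G.Adj (w.getVert 2) (w.getVert 3) := hadj 2 (by omega)
    rw [hl] at hlast
    rw [hlast] at a2
    exact tri a0 a1 a2
  · have a0 : G.Adj (w.getVert 0) (w.getVert 1) := hadj 0 (by omega)
    have a1 : G.Adj (w.getVert 1) (w.getVert 2) := hadj 1 (by omega)
    have a2 : G.Adj (w.getVert 2) (w.getVert 3) := hadj 2 (by omega)
    have a3 : G.Adj (w.getVert 3) (w.getVert 4) := hadj 3 (by omega)
    have hinj := hw.getVert_injOn
    rw [hl] at hlast
    have hac : w.getVert 0 ≠ w.getVert 2 := by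
      intro h
      have h2 : w.getVert 4 = w.getVert 2 := hlast.trans h
      have := hinj (by simp [hl]) (by simp [hl]) h2
      omega
    have hbd : w.getVert 1 ≠ w.getVert 3 := by
      intro h
      have := hinj (by simp [hl]) (by simp [hl]) h
      omega
    rw [hlast] at a3
    exact quad a0 a1 a2 a3 hac hbd

end Pool.Agent.H780R3.Snark
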