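import Mathlib
import Pool.Agent.H780R3.Snark.Data
import Pool.Agent.H780R3.Snark.Defs
import Pool.Agent.H780R3.Snark.Girth
import Pool.Agent.H780R3.Snark.Color

set_option linter.all false

namespace Pool.Agent.H780R3.Snark

section

variable (m : Fin 3 → Fin 58 → Fin 58)

/-- the edge `v w` is uncovered -/
def Un (v w : Fin 58) : Prop := G.Adj v w ∧ m 0 v ≠ w ∧ m 1 v ≠ w ∧ m 2 v ≠ w

/-- the edge `v w` is covered at least twice -/
def Du (v x : Fin 58) : Prop :=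
  (m 0 v = x ∧ m 1 v = x) ∨ (m 0 v = x ∧ m 2 v = x) ∨ (m 1 v = x ∧ m 2 v = x)

variable {m}

theorem inv_iff (hinv : ∀ i v, m i (m i v) = v) (i : Fin 3) (v w : Fin 58) :
    m i v = w ↔ m i w = v :=
  ⟨fun h => by rw [← h]; exact hinv i v, fun h => by rw [← h]; exact hinv i w⟩

theorem Un_symm (hinv : ∀ i v, m i (m i v) = v) {v w : Fin 58} (h : Un m v w) : Un m w v := by
  obtain ⟨h0, h1, h2, h3⟩ := h
  refine ⟨h0.symm, ?_, ?_, ?_⟩
  · rw [Ne, ← inv_iff hinv]; exact h1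
  · rw [Ne, ← inv_iff hinv]; exact h2
  · rw [Ne, ← inv_iff hinv]; exact h3

theorem Du_symm (hinv : ∀ i v, m i (m i v) = v) {v w : Fin 58} (h : Du m v w) : Du m w v := by
  rcases h with ⟨h1, h2⟩ | ⟨h1, h2⟩ | ⟨h1, h2⟩
  · exact Or.inl ⟨(inv_iff hinv _ _ _).mp h1, (inv_iff hinv _ _ _).mp h2⟩
  · exact Or.inr (Or.inl ⟨(inv_iff hinv _ _ _).mp h1, (inv_iff hinv _ _ _).mp h2⟩)
  · exact Or.inr (Or.inr ⟨(inv_iff hinv _ _ _).mp h1, (inv_iff hinv _ _ _).mp h2⟩)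

theorem Un_Du_ne {v w x : Fin 58} (h : Un m v w) (h' : Du m v x) : w ≠ x := by
  rintro rfl
  obtain ⟨h0, h1, h2, h3⟩ := h
  rcases h' with ⟨a, b⟩ | ⟨a, b⟩ | ⟨a, b⟩
  · exact h1 a
  · exact h1 a
  · exact h2 a

theorem Du_adj (hadj : ∀ i v, G.Adj v (m i v)) {v x : Fin 58} (h : Du m v x) : G.Adj v x := by
  rcases h with ⟨a, b⟩ | ⟨a, b⟩ | ⟨a, b⟩
  · rw [← a]; exact hadj _ _
  · rw [← a]; exact hadj _ _
  · rw [← a]; exact hadj _ _

theorem exists_Un (hadj : ∀ i v, G.Adj v (m i v)) {v x : Fin 58} (h : Du m v x) :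
    ∃ w, Un m v w := by
  by_contra hcon
  push Not at hcon
  have key : ∀ w, G.Adj v w → m 0 v = w ∨ m 1 v = w ∨ m 2 v = w := by
    intro w hw
    by_contra h'
    push Not at h'
    exact hcon w ⟨hw, h'⟩
  have k0 := key (n0 v) (G_adj.mpr (Or.inl rfl))
  have k1 := key (n1 v) (G_adj.mpr (Or.inr (Or.inl rfl)))
  have k2 := key (n2 v) (G_adj.mpr (Or.inr (Or.inr rfl)))
  obtain ⟨a, b, c⟩ := n_ne v
  unfold Du at h
  simp only [Fin.ext_iff, Ne] at k0 k1 k2 a b c h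
  omega

theorem exists_Du (hadj : ∀ i v, G.Adj v (m i v)) {v w : Fin 58} (h : Un m v w) :
    ∃ x, Du m v x := by
  have a0 := G_adj.mp (hadj 0 v)
  have a1 := G_adj.mp (hadj 1 v)
  have a2 := G_adj.mp (hadj 2 v)
  obtain ⟨hw, h0, h1, h2⟩ := h
  have aw := G_adj.mp hw
  have key : m 0 v = m 1 v ∨ m 0 v = m 2 v ∨ m 1 v = m 2 v := by
    simp only [Fin.ext_iff, Ne] at a0 a1 a2 h0 h1 h2 aw ⊢
    omega
  rcases key with h | h | h
  · exact ⟨m 1 v, Or.inl ⟨h, rfl⟩⟩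
  · exact ⟨m 2 v, Or.inr (Or.inl ⟨h, rfl⟩)⟩
  · exact ⟨m 2 v, Or.inr (Or.inr ⟨h, rfl⟩)⟩

theorem Du_unique {v x x' : Fin 58} (h : Du m v x) (h' : Du m v x') : x = x' := by
  unfold Du at h h'
  simp only [Fin.ext_iff] at h h' ⊢
  omega

theorem Un_unique (hadj : ∀ i v, G.Adj v (m i v)) {v w w' : Fin 58}
    (hn : ¬ (m 0 v = m 1 v ∧ m 1 v = m 2 v)) (h : Un m v w) (h' : Un m v w') : w = w' := by
  have a0 := G_adj.mp (hadj 0 v)
  have a1 := G_adj.mp (hadj 1 v)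
  have a2 := G_adj.mp (hadj 2 v)
  obtain ⟨hw, h0, h1, h2⟩ := h
  obtain ⟨hw', h0', h1', h2'⟩ := h'
  have aw := G_adj.mp hw
  have aw' := G_adj.mp hw'
  simp only [Fin.ext_iff, Ne] at a0 a1 a2 h0 h1 h2 aw aw' h0' h1' h2' hn ⊢
  omega

theorem triple (v x : Fin 58) (hx : G.Adj v x) (h0 : m 0 v = x) (h1 : m 1 v = x)
    (h2 : m 2 v = x) : ∃ w w', w ≠ w' ∧ Un m v w ∧ Un m v w' ∧ w ≠ x ∧ w' ≠ x := by
  obtain ⟨a, b, c⟩ := n_ne v
  have g0 : G.Adj v (n0 v) := G_adj.mpr (Or.inl rfl)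
  have g1 : G.Adj v (n1 v) := G_adj.mpr (Or.inr (Or.inl rfl))
  have g2 : G.Adj v (n2 v) := G_adj.mpr (Or.inr (Or.inr rfl))
  have key : ∀ w, G.Adj v w → w ≠ x → Un m v w := by
    intro w hw hwx
    refine ⟨hw, ?_, ?_, ?_⟩
    · rw [h0]; exact Ne.symm hwx
    · rw [h1]; exact Ne.symm hwx
    · rw [h2]; exact Ne.symm hwx
  rcases G_adj.mp hx with h | h | h
  · exact ⟨n1 v, n2 v, c, key _ g1 (by rw [h]; exact Ne.symm a), key _ g2 (by rw [h]; exact Ne.symm b),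
      by rw [h]; exact Ne.symm a, by rw [h]; exact Ne.symm b⟩
  · exact ⟨n0 v, n2 v, b, key _ g0 (by rw [h]; exact a), key _ g2 (by rw [h]; exact Ne.symm c),
      by rw [h]; exact a, by rw [h]; exact Ne.symm c⟩
  · exact ⟨n0 v, n1 v, a, key _ g0 (by rw [h]; exact b), key _ g1 (by rw [h]; exact c),
      by rw [h]; exact b, by rw [h]; exact c⟩

theorem some_Du (hadj : ∀ i v, G.Adj v (m i v)) (hinv : ∀ i v, m i (m i v) = v) :
    ∃ v x, Du m v x := by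
  classical
  by_contra hcon
  push Not at hcon
  have hd : ∀ v, m 0 v ≠ m 1 v ∧ m 0 v ≠ m 2 v ∧ m 1 v ≠ m 2 v := by
    intro v
    refine ⟨fun h => ?_, fun h => ?_, fun h => ?_⟩
    · exact hcon v (m 1 v) (Or.inl ⟨h, rfl⟩)
    · exact hcon v (m 2 v) (Or.inr (Or.inl ⟨h, rfl⟩))
    · exact hcon v (m 2 v) (Or.inr (Or.inr ⟨h, rfl⟩))
  have hinj : ∀ v i j, m i v = m j v → i = j := by
    intro v i j h
    obtain ⟨a, b, c⟩ := hd v
    fin_cases i <;> fin_cases j <;>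
      first
        | rfl
        | exact absurd h a
        | exact absurd h b
        | exact absurd h c
        | exact absurd h.symm a
        | exact absurd h.symm b
        | exact absurd h.symm c
  have hcov : ∀ v w, G.Adj v w → ∃ i, w = m i v := by
    intro v w hw
    have a0 := G_adj.mp (hadj 0 v)
    have a1 := G_adj.mp (hadj 1 v)
    have a2 := G_adj.mp (hadj 2 v)
    have aw := G_adj.mp hw
    obtain ⟨a, b, c⟩ := hd v
    have : w = m 0 v ∨ w = m 1 v ∨ w = m 2 v := by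
      simp only [Fin.ext_iff, Ne] at a0 a1 a2 aw a b c ⊢
      omega
    rcases this with h | h | h
    · exact ⟨0, h⟩
    · exact ⟨1, h⟩
    · exact ⟨2, h⟩
  apply not_colourable
  let c : Sym2 (Fin 58) → Fin 3 := fun e =>
    if h : ∃ i, ∃ v, e = s(v, m i v) then h.choose else 0
  have hc : ∀ i v, c s(v, m i v) = i := by
    intro i v
    have hex : ∃ j, ∃ u, s(v, m i v) = s(u, m j u) := ⟨i, v, rfl⟩
    have h1 : c s(v, m i v) = hex.choose := dif_pos hex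
    obtain ⟨u, hu⟩ := hex.choose_spec
    rw [h1]
    generalize hex.choose = j at hu
    rw [Sym2.eq_iff] at hu
    rcases hu with ⟨h2, h3⟩ | ⟨h2, h3⟩
    · rw [← h2] at h3; exact (hinj _ _ _ h3).symm
    · have h4 : m j v = u := by rw [h2]; exact hinv _ _
      exact (hinj v _ _ (h3.trans h4.symm)).symm
  refine ⟨c, ?_⟩
  rintro e he e' he' hne ⟨v, hv, hv'⟩ hcc
  obtain ⟨w, rfl⟩ := Sym2.mem_iff_exists.mp hv
  obtain ⟨w', rfl⟩ := Sym2.mem_iff_exists.mp hv'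
  obtain ⟨i, rfl⟩ := hcov v w he
  obtain ⟨j, rfl⟩ := hcov v w' he'
  rw [hc, hc] at hcc
  exact hne (by rw [hcc])

theorem four (hadj : ∀ i v, G.Adj v (m i v)) (hinv : ∀ i v, m i (m i v) = v) :
    ∃ a1 b1 a2 b2 a3 b3 a4 b4 : Fin 58, Un m a1 b1 ∧ Un m a2 b2 ∧ Un m a3 b3 ∧ Un m a4 b4 ∧
      s(a1, b1) ≠ s(a2, b2) ∧ s(a1, b1) ≠ s(a3, b3) ∧ s(a1, b1) ≠ s(a4, b4) ∧
      s(a2, b2) ≠ s(a3, b3) ∧ s(a2, b2) ≠ s(a4, b4) ∧ s(a3, b3) ≠ s(a4, b4) := by
  by_cases ht : ∃ v, m 0 v = m 1 v ∧ m 1 v = m 2 v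
  · obtain ⟨v, h1, h2⟩ := ht
    set x := m 2 v with hx
    have hvx : G.Adj v x := hadj 2 v
    obtain ⟨w, w', hww, hw, hw', hwx, hwx'⟩ := triple v x hvx (h1.trans h2) h2 hx.symm
    obtain ⟨y, y', hyy, hy, hy', hyv, hyv'⟩ := triple x v hvx.symm
      ((inv_iff hinv _ _ _).mp (h1.trans h2)) ((inv_iff hinv _ _ _).mp h2)
      ((inv_iff hinv _ _ _).mp hx.symm)
    refine ⟨v, w, v, w', x, y, x, y', hw, hw', hy, hy', ?_, ?_, ?_, ?_, ?_, ?_⟩
    · intro h; exact hww (Sym2.congr_right.mp h)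
    · intro h; rcases Sym2.eq_iff.mp h with ⟨k1, k2⟩ | ⟨k1, k2⟩
      · exact hvx.ne k1
      · exact hyv k1.symm
    · intro h; rcases Sym2.eq_iff.mp h with ⟨k1, k2⟩ | ⟨k1, k2⟩
      · exact hvx.ne k1
      · exact hyv' k1.symm
    · intro h; rcases Sym2.eq_iff.mp h with ⟨k1, k2⟩ | ⟨k1, k2⟩
      · exact hvx.ne k1
      · exact hyv k1.symm
    · intro h; rcases Sym2.eq_iff.mp h with ⟨k1, k2⟩ | ⟨k1, k2⟩
      · exact hvx.ne k1
      · exact hyv' k1.symm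
    · intro h; exact hyy (Sym2.congr_right.mp h)
  · push Not at ht
    have ht' : ∀ v, ¬ (m 0 v = m 1 v ∧ m 1 v = m 2 v) := fun v h => ht v h.1 h.2
    obtain ⟨v4, v5, d45⟩ := some_Du hadj hinv
    obtain ⟨v3, u43⟩ := exists_Un hadj d45
    have d54 := Du_symm hinv d45
    obtain ⟨v6, u56⟩ := exists_Un hadj d54
    have u34 := Un_symm hinv u43
    have u65 := Un_symm hinv u56
    obtain ⟨v2, d32⟩ := exists_Du hadj u34
    obtain ⟨v7, d67⟩ := exists_Du hadj u65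
    have d23 := Du_symm hinv d32
    have d76 := Du_symm hinv d67
    obtain ⟨v1, u21⟩ := exists_Un hadj d23
    obtain ⟨v8, u78⟩ := exists_Un hadj d76
    have u12 := Un_symm hinv u21
    have u87 := Un_symm hinv u78
    have g12 : G.Adj v1 v2 := u12.1
    have g23 : G.Adj v2 v3 := Du_adj hadj d23
    have g34 : G.Adj v3 v4 := u34.1
    have g45 : G.Adj v4 v5 := Du_adj hadj d45
    have g56 : G.Adj v5 v6 := u56.1
    have g67 : G.Adj v6 v7 := Du_adj hadj d67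
    have g78 : G.Adj v7 v8 := u78.1
    have n13 : v1 ≠ v3 := Un_Du_ne u21 d23
    have n24 : v2 ≠ v4 := (Un_Du_ne u34 d32).symm
    have n35 : v3 ≠ v5 := Un_Du_ne u43 d45
    have n46 : v4 ≠ v6 := (Un_Du_ne u56 d54).symm
    have n57 : v5 ≠ v7 := Un_Du_ne u65 d67
    have n68 : v6 ≠ v8 := (Un_Du_ne u78 d76).symm
    refine ⟨v1, v2, v3, v4, v5, v6, v7, v8, u12, u34, u56, u78, ?_, ?_, ?_, ?_, ?_, ?_⟩
    · intro h; rcases Sym2.eq_iff.mp h with ⟨k1, k2⟩ | ⟨k1, k2⟩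
      · exact n13 k1
      · exact g23.ne k2
    · intro h; rcases Sym2.eq_iff.mp h with ⟨k1, k2⟩ | ⟨k1, k2⟩
      · rw [← k1] at g45
        exact quad g12 g23 g34 g45 n13 n24
      · rw [← k2] at d54
        exact g34.ne (Du_unique d23 d54)
    · intro h; rcases Sym2.eq_iff.mp h with ⟨k1, k2⟩ | ⟨k1, k2⟩
      · rw [← k1] at g67
        exact hex g12 g23 g34 g45 g56 g67 n13 n24 n35 n46
      · rw [← k2] at d76
        have h36 : v3 = v6 := Du_unique d23 d76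
        rw [← h36] at u65
        exact g45.ne (Un_unique hadj (ht' _) u34 u65)
    · intro h; rcases Sym2.eq_iff.mp h with ⟨k1, k2⟩ | ⟨k1, k2⟩
      · exact n35 k1
      · exact g45.ne k2
    · intro h; rcases Sym2.eq_iff.mp h with ⟨k1, k2⟩ | ⟨k1, k2⟩
      · rw [← k1] at g67
        exact quad g34 g45 g56 g67 n35 n46
      · rw [← k2] at d76
        exact g56.ne (Du_unique d45 d76)
    · intro h; rcases Sym2.eq_iff.mp h with ⟨k1, k2⟩ | ⟨k1, k2⟩
      · exact n57 k1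
      · exact g67.ne k2

end

theorem partner {M : G.Subgraph} (hM : M.IsPerfectMatching) :
    ∃ m : Fin 58 → Fin 58, ∀ v w, M.Adj v w ↔ m v = w := by
  have h : ∀ v, ∃! w, M.Adj v w := SimpleGraph.Subgraph.isPerfectMatching_iff.mp hM
  choose m hm hu using h
  exact ⟨m, fun v w => ⟨fun h => (hu v w h).symm, fun h => by rw [← h]; exact hm v⟩⟩

theorem uncovered_ge (M : Fin 3 → G.Subgraph) (hM : ∀ i, (M i).IsPerfectMatching) :
    4 ≤ (G.edgeSet \ ⋃ i, (M i).edgeSet).ncard := by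
  have h := fun i => partner (hM i)
  choose m hm using h
  have hadj : ∀ i v, G.Adj v (m i v) := fun i v => (M i).adj_sub ((hm i v _).mpr rfl)
  have hinv : ∀ i v, m i (m i v) = v := fun i v =>
    (hm i _ _).mp ((hm i v _).mpr rfl).symm
  have hU : ∀ v w, Un m v w → s(v, w) ∈ G.edgeSet \ ⋃ i, (M i).edgeSet := by
    intro v w hvw
    refine ⟨hvw.1, ?_⟩
    rw [Set.mem_iUnion]
    rintro ⟨i, hi⟩
    have h1 : (M i).Adj v w := hi
    rw [hm] at h1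
    obtain ⟨-, k0, k1, k2⟩ := hvw
    fin_cases i
    · exact k0 h1
    · exact k1 h1
    · exact k2 h1
  obtain ⟨a1, b1, a2, b2, a3, b3, a4, b4, u1, u2, u3, u4, h12, h13, h14, h23, h24, h34⟩ :=
    four hadj hinv
  have hsub : ({s(a1, b1), s(a2, b2), s(a3, b3), s(a4, b4)} : Set (Sym2 (Fin 58))) ⊆
      G.edgeSet \ ⋃ i, (M i).edgeSet := by
    intro e he
    simp only [Set.mem_insert_iff, Set.mem_singleton_iff] at he
    rcases he with rfl | rfl | rfl | rfl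
    · exact hU _ _ u1
    · exact hU _ _ u2
    · exact hU _ _ u3
    · exact hU _ _ u4
  have hcard : ({s(a1, b1), s(a2, b2), s(a3, b3), s(a4, b4)} : Set (Sym2 (Fin 58))).ncard = 4 := by
    rw [Set.ncard_insert_of_notMem (by simp [h12, h13, h14]),
      Set.ncard_insert_of_notMem (by simp [h23, h24]), Set.ncard_pair h34]
  rw [← hcard]
  exact Set.ncard_le_ncard hsub (Set.toFinite _)

end Pool.Agent.H780R3.Snark
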