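import Mathlib
import Pool.Agent.H780R3.Snark.Data
import Pool.Agent.H780R3.Snark.Defs
import Pool.Agent.H780R3.Snark.Mu

set_option linter.all false

namespace Pool.Agent.H780R3.Snark

/-- three perfect matchings -/
def p0 : List (Fin 58) := [41, 3, 11, 1, 15, 10, 7, 6, 9, 8, 5, 2, 18, 17, 27, 4, 24, 13, 12, 21, 26, 19, 23, 22, 16, 31, 20, 14, 33, 30, 29, 25, 34, 28, 32, 36, 35, 38, 37, 43, 48, 0, 51, 39, 47, 49, 50, 44, 40, 45, 46, 42, 56, 57, 55, 54, 52, 53]
def p1 : List (Fin 58) := [1, 0, 11, 4, 3, 6, 5, 14, 16, 13, 12, 2, 10, 9, 7, 23, 8, 19, 20, 17, 18, 22, 21, 15, 25, 24, 28, 29, 26, 27, 42, 32, 31, 36, 35, 34, 33, 39, 45, 37, 41, 40, 30, 53, 46, 38, 44, 49, 54, 47, 52, 57, 50, 43, 48, 56, 55, 51]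
def p2 : List (Fin 58) := [1, 0, 4, 7, 2, 10, 8, 3, 6, 13, 5, 12, 11, 9, 15, 14, 17, 16, 22, 20, 19, 24, 18, 25, 21, 23, 30, 28, 27, 31, 26, 29, 39, 38, 40, 37, 52, 35, 33, 32, 34, 44, 43, 42, 41, 46, 45, 48, 47, 55, 51, 50, 36, 54, 53, 49, 57, 56]

/-- the partner of `v` in the matching number `i` -/
def pt (i : Fin 3) (v : Fin 58) : Fin 58 := match i with
  | 0 => p0.getD v.val 0
  | 1 => p1.getD v.val 0
  | 2 => p2.getD v.val 0

theorem pt_adj : ∀ (i : Fin 3) (v : Fin 58), G.Adj v (pt i v) := by decide +kernel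

theorem pt_inv : ∀ (i : Fin 3) (v : Fin 58), pt i (pt i v) = v := by decide +kernel

theorem pt_cov : ∀ v w : Fin 58, G.Adj v w → pt 0 v = w ∨ pt 1 v = w ∨ pt 2 v = w ∨
    s(v, w) = s(0, 2) ∨
    s(v, w) = s(1, 5) ∨
    s(v, w) = s(9, 10) ∨
    s(v, w) = s(11, 13) := by
  decide +kernel

/-- the matchings as subgraphs -/
def mt (i : Fin 3) : G.Subgraph where
  verts := Set.univ
  Adj v w := pt i v = w
  adj_sub := by
    intro v w h
    rw [← h]; exact pt_adj i v
  edge_vert := fun _ => Set.mem_univ _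
  symm := ⟨by
    intro v w h
    rw [← h]; exact pt_inv i v⟩

theorem mt_perfect (i : Fin 3) : (mt i).IsPerfectMatching := by
  rw [SimpleGraph.Subgraph.isPerfectMatching_iff]
  intro v
  exact ⟨pt i v, rfl, fun w h => (show pt i v = w from h).symm⟩

theorem mt_uncovered : (G.edgeSet \ ⋃ i, (mt i).edgeSet).ncard = 4 := by
  apply le_antisymm
  · have hsub : G.edgeSet \ ⋃ i, (mt i).edgeSet ⊆
        ((([s(0, 2), s(1, 5), s(9, 10), s(11, 13)] : List (Sym2 (Fin 58))).toFinset : Finset (Sym2 (Fin 58))) : Set (Sym2 (Fin 58))) := by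
      rintro e ⟨he, hn⟩
      induction e using Sym2.ind with
      | _ v w =>
        have hvw : G.Adj v w := he
        rw [Set.mem_iUnion] at hn
        push Not at hn
        have k : ∀ i, pt i v ≠ w := fun i h => hn i h
        rcases pt_cov v w hvw with h | h | h | h | h | h | h
        · exact absurd h (k 0)
        · exact absurd h (k 1)
        · exact absurd h (k 2)
        · rw [h]; simp
        · rw [h]; simp
        · rw [h]; simp
        · rw [h]; simp
    refine (Set.ncard_le_ncard hsub (Set.toFinite _)).trans ?_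
    rw [Set.ncard_coe_finset]
    exact (List.toFinset_card_le _).trans (by simp)
  · exact uncovered_ge mt mt_perfect

theorem mu_eq : mu G 3 = 4 := by
  unfold mu
  apply le_antisymm
  · exact Nat.sInf_le ⟨mt, mt_perfect, mt_uncovered.symm⟩
  · refine le_csInf ⟨4, mt, mt_perfect, mt_uncovered.symm⟩ ?_
    rintro k ⟨M, hM, rfl⟩
    exact uncovered_ge M hM

end Pool.Agent.H780R3.Snark
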