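import Mathlib
import Pool.Agent.H780R3.Snark.Data
import Pool.Agent.H780R3.Snark.HamData
import Pool.Agent.H780R3.Snark.Defs
import Pool.Agent.H780R3.Snark.Color

set_option linter.all false

namespace Pool.Agent.H780R3.Snark

/-- the boolean test for a Hamiltonian cycle of the graph without `v` -/
def okH (v : Fin 58) (l : List (Fin 58)) : Bool :=
  decide (l.length = 57) && decide (l.Nodup) && decide (∀ i : Fin 57, G.Adj (l.getD i.val 0)
    (l.getD (i + 1).val 0)) && decide (v ∉ l)

theorem hams_ok : ∀ v : Fin 58, okH v (hams.getD v.val []) = true := by decide +kernel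

theorem ham_of_list {v : Fin 58} {l : List (Fin 58)} (h : okH v l = true) :
    HasHamiltonianCycle (G.induce {w | w ≠ v}) := by
  unfold okH at h
  simp only [Bool.and_eq_true, decide_eq_true_eq] at h
  obtain ⟨⟨⟨hl, hnd⟩, hadj⟩, hv⟩ := h
  have hget : ∀ i : Fin 57, l.getD i.val 0 = l.get ⟨i.val, by rw [hl]; exact i.isLt⟩ := by
    intro i
    rw [List.getD_eq_getElem _ _ (by rw [hl]; exact i.isLt)]
    rfl
  have hmem : ∀ i : Fin 57, l.getD i.val 0 ≠ v := by
    intro i hi
    apply hv
    rw [← hi, hget]
    exact List.get_mem _ _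
  let g : Fin 57 → {w : Fin 58 | w ≠ v} := fun i => ⟨l.getD i.val 0, hmem i⟩
  have hginj : Function.Injective g := by
    intro i j hij
    have h1 : l.getD i.val 0 = l.getD j.val 0 := congrArg Subtype.val hij
    rw [hget, hget] at h1
    have := (List.nodup_iff_injective_get.mp hnd) h1
    apply Fin.ext
    have h2 := congrArg Fin.val this
    exact h2
  have hcard : Fintype.card {w : Fin 58 | w ≠ v} = 57 := by
    have : Fintype.card {w : Fin 58 | w ≠ v} = Fintype.card {w : Fin 58 // w ≠ v} :=
      Fintype.card_congr (Equiv.refl _)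
    rw [this, Fintype.card_subtype_compl, Fintype.card_fin]
    simp
  have hgbij : Function.Bijective g := by
    rw [Fintype.bijective_iff_injective_and_card]
    exact ⟨hginj, by rw [hcard, Fintype.card_fin]⟩
  refine ⟨57, Equiv.ofBijective g hgbij, by norm_num, fun i => ?_⟩
  exact hadj i

theorem ham_delete (v : Fin 58) : HasHamiltonianCycle (G.induce {w | w ≠ v}) :=
  ham_of_list (hams_ok v)

theorem third {a b w w' x y z : Fin 58} (ha : a = x ∨ a = y ∨ a = z) (hb : b = x ∨ b = y ∨ b = z)
    (hw : w = x ∨ w = y ∨ w = z) (hw' : w' = x ∨ w' = y ∨ w' = z) (hab : a ≠ b)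
    (h1 : w ≠ a) (h2 : w ≠ b) (h3 : w' ≠ a) (h4 : w' ≠ b) : w = w' := by
  rw [Fin.ext_iff, Fin.ext_iff, Fin.ext_iff] at ha hb hw hw'
  rw [Ne, Fin.ext_iff] at hab h1 h2 h3 h4
  apply Fin.ext
  omega

theorem not_ham_aux (f : Fin 58 ≃ Fin 58) (hf : ∀ i, G.Adj (f i) (f (i + 1))) : False := by
  apply not_colourable
  classical
  -- the two classes of edges of the cycle
  let A : ℕ → Sym2 (Fin 58) → Prop := fun r e => ∃ i : Fin 58, i.val % 2 = r ∧
    e = s(f i, f (i + 1))
  have hval : ∀ i : Fin 58, (i + 1).val = if i.val = 57 then 0 else i.val + 1 := by decide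
  have hne1 : ∀ i : Fin 58, i + 1 ≠ i := by decide
  have hne2 : ∀ i : Fin 58, i + 1 + 1 ≠ i := by decide
  have hsame : ∀ (r : ℕ) (e e' : Sym2 (Fin 58)) (v : Fin 58), A r e → A r e' → v ∈ e → v ∈ e' →
      e = e' := by
    rintro r e e' v ⟨i, hi, rfl⟩ ⟨j, hj, rfl⟩ h1 h2
    rw [Sym2.mem_iff] at h1 h2
    have key : i = j ∨ i = j + 1 ∨ i + 1 = j := by
      rcases h1 with h1 | h1 <;> rcases h2 with h2 | h2
      · left; exact f.injective (h1 ▸ h2)
      · right; left; exact f.injective (h1 ▸ h2)
      · right; right; exact f.injective (h1 ▸ h2)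
      · left
        have := f.injective (h1 ▸ h2 : f (i + 1) = f (j + 1))
        exact add_right_cancel this
    rcases key with h | h | h
    · rw [h]
    · exfalso
      have h3 := hval j
      rw [← h] at h3
      split_ifs at h3 with h4 <;> omega
    · exfalso
      have h3 := hval i
      rw [h] at h3
      split_ifs at h3 with h4 <;> omega
  refine ⟨fun e => if A 0 e then 0 else if A 1 e then 1 else 2, ?_⟩
  rintro e he e' he' hee ⟨v, hv, hv'⟩ hc
  by_cases h0 : A 0 e
  · have : A 0 e' := by
      by_contra h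
      simp only [h0, h, if_true, if_false] at hc
      split_ifs at hc
      · exact absurd hc (by decide)
      · exact absurd hc (by decide)
    exact hee (hsame 0 e e' v h0 this hv hv')
  · by_cases h1 : A 1 e
    · have : A 1 e' := by
        by_contra h
        simp only [h0, h1, h, if_true, if_false] at hc
        split_ifs at hc
        · exact absurd hc (by decide)
        · exact absurd hc (by decide)
      exact hee (hsame 1 e e' v h1 this hv hv')
    · have h0' : ¬ A 0 e' := by
        intro h
        simp only [h0, h1, h, if_true, if_false] at hc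
        exact absurd hc (by decide)
      have h1' : ¬ A 1 e' := by
        intro h
        simp only [h0, h1, h0', h, if_true, if_false] at hc
        exact absurd hc (by decide)
      -- both edges avoid the cycle
      obtain ⟨w, rfl⟩ := Sym2.mem_iff_exists.mp hv
      obtain ⟨w', rfl⟩ := Sym2.mem_iff_exists.mp hv'
      obtain ⟨k, rfl⟩ := f.surjective v
      have hk2 : ∀ i : Fin 58, i.val % 2 = 0 ∨ i.val % 2 = 1 := fun i => Nat.mod_two_eq_zero_or_one _
      have hpred : ∀ i : Fin 58, i - 1 + 1 = i := by decide
      have hA : ∀ e : Sym2 (Fin 58), ¬ A 0 e → ¬ A 1 e → ∀ i : Fin 58, e ≠ s(f i, f (i + 1)) := by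
        intro e h0 h1 i hi
        rcases hk2 i with h | h
        · exact h0 ⟨i, h, hi⟩
        · exact h1 ⟨i, h, hi⟩
      have q1 : G.Adj (f k) (f (k + 1)) := hf k
      have q2 : G.Adj (f k) (f (k - 1)) := by
        have := hf (k - 1)
        rw [hpred] at this
        exact this.symm
      have hab : f (k + 1) ≠ f (k - 1) := by
        intro h
        have h3 : k + 1 = k - 1 := f.injective h
        have h4 : k - 1 + 1 + 1 = k - 1 := by rw [hpred]; exact h3
        exact hne2 _ h4
      have hww : w = w' := by
        refine third (a := f (k + 1)) (b := f (k - 1)) (G_adj.mp q1) (G_adj.mp q2) (G_adj.mp he)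
          (G_adj.mp he') hab ?_ ?_ ?_ ?_
        · intro h; rw [h] at h0 h1; exact hA _ h0 h1 k rfl
        · intro h; rw [h] at h0 h1
          refine hA _ h0 h1 (k - 1) ?_
          rw [hpred, Sym2.eq_swap]
        · intro h; rw [h] at h0' h1'; exact hA _ h0' h1' k rfl
        · intro h; rw [h] at h0' h1'
          refine hA _ h0' h1' (k - 1) ?_
          rw [hpred, Sym2.eq_swap]
      exact hee (by rw [hww])

theorem not_ham : ¬ HasHamiltonianCycle G := by
  rintro ⟨m, f, hm, hf⟩
  have hm58 : m = 58 := by
    haveI : NeZero m := ⟨by omega⟩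
    have := Fintype.card_congr f
    rwa [ZMod.card, Fintype.card_fin] at this
  subst hm58
  exact not_ham_aux f hf

theorem hypo : Hypohamiltonian G := ⟨not_ham, ham_delete⟩

end Pool.Agent.H780R3.Snark
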